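import Pool.Agent.Y993.HP.Stm

/-!
# HP-CARD: cardinalities of a high-dimensional permutation
-/

set_option autoImplicit false

namespace Pool.Agent.Y10.HP

open Finset Pool.Agent.Y993.HP

theorem eq_of_off {k n : ℕ} {A : Finset (Pt (k + 1) n)} (hA : IsPerm A) (i0 : Fin (k + 1))
    {p q : Pt (k + 1) n} (hp : p ∈ A) (hq : q ∈ A) (h : ∀ i, i ≠ i0 → p i = q i) : p = q := by
  have h1 : Function.update p i0 (q i0) = q := by
    funext i
    by_cases hi : i = i0
    · subst hi; simp
    · rw [Function.update_of_ne hi]; exact h i hi
  have h2 : Function.update p i0 (p i0) = p := Function.update_eq_self _ _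
  have h3 := (hA i0 p).unique (y₁ := q i0) (y₂ := p i0) (by rw [h1]; exact hq)
    (by rw [h2]; exact hp)
  rw [← h1, h3, h2]

theorem card : S_CARD := by
  intro k n A hn hA
  constructor
  · have hb : A.card = (Finset.univ : Finset (Fin k → Fin n)).card := by
      refine Finset.card_bij (fun p _ => Fin.removeNth 0 p) (fun _ _ => Finset.mem_univ _) ?_ ?_
      · intro p hp q hq h
        refine eq_of_off hA 0 hp hq ?_
        intro i hi
        obtain ⟨j, rfl⟩ := Fin.exists_succAbove_eq hi
        exact congrFun h j
      · intro β _
        obtain ⟨x, hx, -⟩ := hA 0 (Fin.insertNth 0 (⟨0, hn⟩ : Fin n) β)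
        refine ⟨_, hx, ?_⟩
        funext j
        simp [Fin.removeNth]
    rw [hb, Finset.card_univ, Fintype.card_fun, Fintype.card_fin, Fintype.card_fin]
  · intro S α
    by_cases hS : S = Finset.univ
    · subst hS
      have h1 : A.filter (fun p => ∀ i ∈ (Finset.univ : Finset (Fin (k + 1))), p i = α i) ⊆ {α} := by
        intro p hp
        rw [Finset.mem_filter] at hp
        rw [Finset.mem_singleton]
        funext i
        exact hp.2 i (Finset.mem_univ i)
      have h2 := Finset.card_le_card h1
      rw [Finset.card_singleton] at h2
      exact h2.trans (Nat.one_le_pow _ _ hn)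
    · obtain ⟨i0, hi0⟩ : ∃ i, i ∉ S := by
        by_contra hc
        push Not at hc
        exact hS (Finset.eq_univ_iff_forall.2 hc)
      have hle : (A.filter (fun p => ∀ i ∈ S, p i = α i)).card ≤
          (Finset.univ : Finset ({j : Fin (k + 1) // j ∉ insert i0 S} → Fin n)).card := by
        refine Finset.card_le_card_of_injOn (fun p j => p j.1) (fun _ _ => Finset.mem_coe.2 (Finset.mem_univ _)) ?_
        intro p hp q hq h
        rw [Finset.mem_coe, Finset.mem_filter] at hp hq
        refine eq_of_off hA i0 hp.1 hq.1 ?_
        intro i hi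
        by_cases his : i ∈ S
        · rw [hp.2 i his, hq.2 i his]
        · have hm : i ∉ insert i0 S := by
            rw [Finset.mem_insert]
            push Not
            exact ⟨hi, his⟩
          exact congrFun h ⟨i, hm⟩
      refine hle.trans (le_of_eq ?_)
      rw [Finset.card_univ, Fintype.card_fun, Fintype.card_fin]
      congr 1
      have h1 : Fintype.card {j : Fin (k + 1) // j ∉ insert i0 S} = ((insert i0 S)ᶜ).card := by
        rw [Fintype.card_subtype]
        congr 1
        ext j
        simp
      rw [h1, Finset.card_compl, Fintype.card_fin, Finset.card_insert_of_notMem hi0]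
      omega

end Pool.Agent.Y10.HP
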